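import Mathlib

set_option autoImplicit false

namespace Pool.Agent.Results.MP_544047_al.Terminates

/-- The free group on `a, b`. -/
abbrev F := FreeGroup (Fin 2)

/-- The alphabet `Ξ = {a, b, a⁻¹, b⁻¹}` as a subset of `F₂`. -/
def Xi : Set F := {h | ∃ i, h = FreeGroup.of i ∨ h = (FreeGroup.of i)⁻¹}

/-- `D H y i` is the set `C_{i-1}`: `D 0 = C_{-1} = ∅`, `D 1 = C_0 = {yH}` and
`C_{i+1} = {h x H : h ∈ Ξ, xH ∈ C_i} \ C_{i-1}`. -/
def D (H : Subgroup F) (y : F) : ℕ → Set (F ⧸ H)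
  | 0 => ∅
  | 1 => {(y : F ⧸ H)}
  | i + 2 => {v | ∃ h ∈ Xi, ∃ x ∈ D H y (i + 1), v = h • x} \ D H y i

/-- The sets `C_i`, `i ≥ 0`. -/
def C (H : Subgroup F) (y : F) (i : ℕ) : Set (F ⧸ H) := D H y (i + 1)

variable {H : Subgroup F} (y : F)

def U (H : Subgroup F) (y : F) : ℕ → Set (F ⧸ H)
  | 0 => ∅
  | 1 => ∅
  | 2 => ∅
  | 3 => {(y : F ⧸ H)}
  | i + 4 => {v | ∃ h ∈ Xi, ∃ x ∈ U H y (i + 3), v = h • x}

lemma inv_mem {h : F} (hh : h ∈ Xi) : h⁻¹ ∈ Xi := by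
  obtain ⟨i, rfl | rfl⟩ := hh
  exacts [⟨i, Or.inr rfl⟩, ⟨i, Or.inl (inv_inv _)⟩]

lemma U_step (i : ℕ) {h : F} (hh : h ∈ Xi) {x : F ⧸ H} (hx : x ∈ U H y i) :
    h • x ∈ U H y (i + 1) := by
  match i, hx with
  | 0, hx => exact hx.elim
  | 1, hx => exact hx.elim
  | 2, hx => exact hx.elim
  | i + 3, hx => exact ⟨h, hh, x, hx, rfl⟩

lemma U_mono (i : ℕ) : U H y i ⊆ U H y (i + 2) := fun x hx => by
  have h0 : FreeGroup.of 0 ∈ Xi := ⟨0, Or.inl rfl⟩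
  simpa using U_step y _ (inv_mem h0) (U_step y i h0 hx)

lemma D_eq (i : ℕ) : D H y i = U H y (i + 2) \ U H y i ∧
    D H y (i + 1) = U H y (i + 3) \ U H y (i + 1) := by
  induction i with
  | zero => simp [D, U]
  | succ i ih =>
    refine ⟨ih.2, ?_⟩
    rw [D, ih.1, ih.2]
    ext v
    constructor
    · rintro ⟨⟨h, hh, x, hx, rfl⟩, h1⟩
      refine ⟨U_step y _ hh hx.1, fun h2 => h1 ⟨h2, fun h3 => hx.2 ?_⟩⟩
      simpa using U_step y _ (inv_mem hh) h3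
    · rintro ⟨⟨h, hh, x, hx, rfl⟩, h1⟩
      exact ⟨⟨h, hh, x, ⟨hx, fun h2 => h1 (U_step y _ hh h2)⟩, rfl⟩, fun h2 => h1 h2.1⟩

/-- For every finite-index subgroup `H ≤ F₂` and every `y` the procedure terminates. -/
theorem result (H : Subgroup F) [H.FiniteIndex] (y : F) : ∃ i, 1 ≤ i ∧ C H y i = ∅ := by
  by_contra! h
  have h1 : ∀ n, n ≤ (U H y (2 * n + 2)).ncard := by
    intro n
    induction n with
    | zero => exact Nat.zero_le _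
    | succ n ih =>
      refine ih.trans_lt (Set.ncard_lt_ncard ⟨U_mono y _, fun h2 => ?_⟩)
      obtain ⟨x, hx⟩ := h (2 * n + 1) (by omega)
      rw [C, (D_eq y (2 * n + 1)).2] at hx
      exact hx.2 (h2 hx.1)
  have h2 := (h1 (Nat.card (F ⧸ H) + 1)).trans (Set.ncard_le_card _)
  omega

end Pool.Agent.Results.MP_544047_al.Terminates
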